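import Pool.Agent.Helper9.SK.St
import Pool.Agent.Helper48.BK.M_APZ

/-!
# Project SK, module BON: Bonferroni inequalities for the weighted sum
-/

set_option autoImplicit false

noncomputable section

namespace Pool.Agent.Helper16.SK

open Pool.Agent.Helper9.SK
open Finset ArithmeticFunction MeasureTheory
open Pool.Agent.Helper48.BK (ex th Pz Vz lz gs Sx Apx)
open Pool.Agent.Helper60.GP (IsB II Err JJ)
open Pool.Agent.Helper15.AB (Th)

private lemma wt_nonneg {ω : ℝ → ℝ} (h : IsB ω) (x : ℝ) (n : ℕ) : 0 ≤ wt ω x n :=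
  mul_nonneg vonMangoldt_nonneg (h.nonneg _)

private lemma Th_nonneg {ω : ℝ → ℝ} (h : IsB ω) (x : ℝ) : 0 ≤ Th ω x :=
  Finset.sum_nonneg fun _ _ => mul_nonneg vonMangoldt_nonneg (h.nonneg _)

private lemma gg_nonneg (v p : ℕ) : 0 ≤ gg v p := by
  unfold gg
  positivity

open Classical in
/-- a general Bonferroni bound with weights on a finite set -/
private lemma bonf (hBrun : Pool.Agent.Helper48.BK.StBrun) {ι : Type} (S : Finset ι) (w : ι → ℝ)
    (m : ι → ℕ) (hw : ∀ i ∈ S, 0 ≤ w i) (P : Finset ℕ) (r : ℕ) :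
    ∑ T ∈ P.powerset.filter (fun T => T.card ≤ r),
        (-1 : ℝ) ^ T.card * (∑ i ∈ S, if ∀ p ∈ T, p ∣ m i then w i else 0) -
      ∑ T ∈ P.powerset.filter (fun T => T.card = r + 1),
        (∑ i ∈ S, if ∀ p ∈ T, p ∣ m i then w i else 0) ≤
      ∑ i ∈ S, w i * (if ∀ p ∈ P, ¬ p ∣ m i then (1 : ℝ) else 0) := by
  have h1 : ∀ (Q : Finset ℕ → Prop) [DecidablePred Q] (c : Finset ℕ → ℝ),
      ∑ T ∈ P.powerset.filter Q, c T * (∑ i ∈ S, if ∀ p ∈ T, p ∣ m i then w i else 0) =
      ∑ i ∈ S, w i * ∑ T ∈ P.powerset.filter (fun T => Q T ∧ ∀ p ∈ T, p ∣ m i), c T := by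
    intro Q _ c
    have h2 : ∀ i ∈ S, w i * ∑ T ∈ P.powerset.filter (fun T => Q T ∧ ∀ p ∈ T, p ∣ m i), c T =
        ∑ T ∈ P.powerset.filter Q, c T * (if ∀ p ∈ T, p ∣ m i then w i else 0) := by
      intro i _
      rw [← Finset.filter_filter, Finset.sum_filter, Finset.mul_sum]
      refine Finset.sum_congr rfl fun T _ => ?_
      split_ifs
      · ring
      · ring
    rw [Finset.sum_congr rfl h2, Finset.sum_comm]
    refine Finset.sum_congr rfl fun T _ => ?_
    rw [Finset.mul_sum]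
  have h3 : ∑ T ∈ P.powerset.filter (fun T => T.card = r + 1),
        (∑ i ∈ S, if ∀ p ∈ T, p ∣ m i then w i else 0) =
      ∑ T ∈ P.powerset.filter (fun T => T.card = r + 1),
        (fun _ => (1 : ℝ)) T * (∑ i ∈ S, if ∀ p ∈ T, p ∣ m i then w i else 0) := by
    refine Finset.sum_congr rfl fun T _ => ?_
    simp
  rw [h3, h1 (fun T => T.card ≤ r) (fun T => (-1 : ℝ) ^ T.card),
    h1 (fun T => T.card = r + 1) (fun _ => (1 : ℝ)), ← Finset.sum_sub_distrib]
  refine Finset.sum_le_sum fun i hi => ?_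
  rw [← mul_sub]
  refine mul_le_mul_of_nonneg_left ?_ (hw i hi)
  have h4 := hBrun P r (m i)
  rw [Finset.sum_const, nsmul_eq_mul, mul_one]
  have h5 := (abs_le.1 h4).1
  linarith

theorem hBON (hBrun : Pool.Agent.Helper48.BK.StBrun) : StBon := by
  classical
  intro ω x y v r z E hω hE
  set P := Pz z with hP
  set Q : ℝ := Th ω x * Th ω y with hQ
  have hQ0 : 0 ≤ Q := mul_nonneg (Th_nonneg hω x) (Th_nonneg hω y)
  have hV := Pool.Agent.Helper48.BK.Vz_pos_APZ z
  set g : Finset ℕ → ℝ := fun T => ∏ p ∈ T, gg v p with hg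
  have hg0 : ∀ T, 0 ≤ g T := fun T => Finset.prod_nonneg fun p _ => gg_nonneg v p
  -- the weighted sum
  have hsum : Vz z * rS ω x y (lz z) v = ∑ i ∈ II x ×ˢ II y,
      (wt ω x i.1 * wt ω y i.2) *
        (if ∀ p ∈ P, ¬ p ∣ v + ff i.1 * ff i.2 then (1 : ℝ) else 0) := by
    rw [Finset.sum_product, rS, Finset.mul_sum]
    refine Finset.sum_congr rfl fun a _ => ?_
    rw [Finset.mul_sum]
    refine Finset.sum_congr rfl fun b _ => ?_
    rw [lz]
    by_cases h : ∀ p ∈ Pz z, ¬ p ∣ v + ff a * ff b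
    · rw [if_pos h, if_pos h]
      field_simp
    · rw [if_neg h, if_neg h]
      ring
  have hAd : ∀ T ∈ P.powerset, Ad ω x y v (∏ p ∈ T, p) = ∑ i ∈ II x ×ˢ II y,
      if ∀ p ∈ T, p ∣ v + ff i.1 * ff i.2 then wt ω x i.1 * wt ω y i.2 else 0 := by
    intro T hT
    have hTP := Finset.mem_powerset.1 hT
    rw [Finset.sum_product, Ad]
    refine Finset.sum_congr rfl fun a _ => ?_
    refine Finset.sum_congr rfl fun b _ => ?_
    have h1 := Pool.Agent.Helper48.BK.dvd_prod_APZ T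
      (fun p hp => ((Pool.Agent.Helper48.BK.mem_Pz_APZ z p).1 (hTP hp)).2) (v + ff a * ff b)
    by_cases h : (∏ p ∈ T, p) ∣ v + ff a * ff b
    · rw [if_pos h, if_pos (h1.2 h)]
    · rw [if_neg h, if_neg (fun h' => h (h1.1 h'))]
  have hB := bonf hBrun (II x ×ˢ II y) (fun i => wt ω x i.1 * wt ω y i.2)
    (fun i => v + ff i.1 * ff i.2)
    (fun i _ => mul_nonneg (wt_nonneg hω x _) (wt_nonneg hω y _)) P r
  have h1 : ∑ T ∈ P.powerset.filter (fun T => T.card ≤ r), ((-1 : ℝ) ^ T.card * (g T * Q) -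
      E (∏ p ∈ T, p)) ≤
      ∑ T ∈ P.powerset.filter (fun T => T.card ≤ r),
        (-1 : ℝ) ^ T.card * (∑ i ∈ II x ×ˢ II y,
          if ∀ p ∈ T, p ∣ v + ff i.1 * ff i.2 then wt ω x i.1 * wt ω y i.2 else 0) := by
    refine Finset.sum_le_sum fun T hT => ?_
    have hT1 := (Finset.mem_filter.1 hT).1
    have hT2 := (Finset.mem_filter.1 hT).2
    rw [← hAd T hT1]
    have h2 := abs_le.1 (hE T hT1 (by omega))
    rcases neg_one_pow_eq_or ℝ T.card with h3 | h3
    · rw [h3]
      have := h2.1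
      simp only [hg, hQ]
      linarith
    · rw [h3]
      have := h2.2
      simp only [hg, hQ]
      linarith
  have h2 : ∑ T ∈ P.powerset.filter (fun T => T.card = r + 1),
        (∑ i ∈ II x ×ˢ II y,
          if ∀ p ∈ T, p ∣ v + ff i.1 * ff i.2 then wt ω x i.1 * wt ω y i.2 else 0) ≤
      ∑ T ∈ P.powerset.filter (fun T => T.card = r + 1), (g T * Q + E (∏ p ∈ T, p)) := by
    refine Finset.sum_le_sum fun T hT => ?_
    have hT1 := (Finset.mem_filter.1 hT).1
    have hT2 := (Finset.mem_filter.1 hT).2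
    rw [← hAd T hT1]
    have h2 := (abs_le.1 (hE T hT1 (by omega))).2
    simp only [hg, hQ]
    linarith
  -- the product
  have h3 : ∏ p ∈ P, (1 - gg v p) = ∑ T ∈ P.powerset, (-1 : ℝ) ^ T.card * g T := by
    have h4 : ∏ p ∈ P, (1 - gg v p) = ∏ p ∈ P, (1 + (-1) * gg v p) :=
      Finset.prod_congr rfl fun p _ => by ring
    rw [h4, Finset.prod_one_add]
    refine Finset.sum_congr rfl fun T _ => ?_
    rw [Finset.prod_mul_distrib, Finset.prod_const]
  have hsplit := Finset.sum_filter_add_sum_filter_not P.powerset (fun T => T.card ≤ r)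
    (fun T => (-1 : ℝ) ^ T.card * g T)
  have hnot : P.powerset.filter (fun T => ¬ T.card ≤ r) =
      P.powerset.filter (fun T => r + 1 ≤ T.card) :=
    Finset.filter_congr fun T _ => by omega
  rw [hnot] at hsplit
  have h4 : ∑ T ∈ P.powerset.filter (fun T => r + 1 ≤ T.card), (-1 : ℝ) ^ T.card * g T ≤
      ∑ T ∈ P.powerset.filter (fun T => r + 1 ≤ T.card), g T := by
    refine Finset.sum_le_sum fun T _ => ?_
    have := hg0 T
    rcases neg_one_pow_eq_or ℝ T.card with h3 | h3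
    · rw [h3]; linarith
    · rw [h3]; linarith
  have h5 : ∑ T ∈ P.powerset.filter (fun T => T.card = r + 1), g T ≤
      ∑ T ∈ P.powerset.filter (fun T => r + 1 ≤ T.card), g T := by
    refine Finset.sum_le_sum_of_subset_of_nonneg ?_ fun T _ _ => hg0 T
    intro T hT
    rw [Finset.mem_filter] at hT ⊢
    exact ⟨hT.1, hT.2.ge⟩
  have h6 : ∑ T ∈ P.powerset.filter (fun T => T.card ≤ r), E (∏ p ∈ T, p) +
      ∑ T ∈ P.powerset.filter (fun T => T.card = r + 1), E (∏ p ∈ T, p) =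
      ∑ T ∈ P.powerset.filter (fun T => T.card ≤ r + 1), E (∏ p ∈ T, p) := by
    rw [← Finset.sum_union]
    · congr 1
      ext T
      simp only [Finset.mem_union, Finset.mem_filter]
      constructor
      · rintro (⟨h1, h2⟩ | ⟨h1, h2⟩)
        · exact ⟨h1, by omega⟩
        · exact ⟨h1, by omega⟩
      · rintro ⟨h1, h2⟩
        rcases Nat.lt_or_ge r T.card with h | h
        · exact Or.inr ⟨h1, by omega⟩
        · exact Or.inl ⟨h1, h⟩
    · rw [Finset.disjoint_filter]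
      intro T _ h1 h2
      omega
  have h7 : ∑ T ∈ P.powerset.filter (fun T => T.card ≤ r), ((-1 : ℝ) ^ T.card * (g T * Q) -
      E (∏ p ∈ T, p)) = Q * ∑ T ∈ P.powerset.filter (fun T => T.card ≤ r), (-1 : ℝ) ^ T.card * g T -
      ∑ T ∈ P.powerset.filter (fun T => T.card ≤ r), E (∏ p ∈ T, p) := by
    rw [Finset.sum_sub_distrib, Finset.mul_sum]
    congr 1
    refine Finset.sum_congr rfl fun T _ => ?_
    ring
  have h8 : ∑ T ∈ P.powerset.filter (fun T => T.card = r + 1), (g T * Q + E (∏ p ∈ T, p)) =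
      Q * ∑ T ∈ P.powerset.filter (fun T => T.card = r + 1), g T +
      ∑ T ∈ P.powerset.filter (fun T => T.card = r + 1), E (∏ p ∈ T, p) := by
    rw [Finset.sum_add_distrib, Finset.mul_sum]
    congr 1
    refine Finset.sum_congr rfl fun T _ => ?_
    ring
  rw [hsum]
  have h9 : Q * (∏ p ∈ P, (1 - gg v p) -
      2 * ∑ T ∈ P.powerset.filter (fun T => r + 1 ≤ T.card), g T) ≤
      Q * (∑ T ∈ P.powerset.filter (fun T => T.card ≤ r), (-1 : ℝ) ^ T.card * g T -
        ∑ T ∈ P.powerset.filter (fun T => T.card = r + 1), g T) := by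
    refine mul_le_mul_of_nonneg_left ?_ hQ0
    rw [h3, ← hsplit]
    linarith
  have h10 := hB
  rw [h7] at h1
  rw [h8] at h2
  simp only [hg] at *
  linarith

end Pool.Agent.Helper16.SK
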